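import Pool.Agent.H52.FR1

set_option autoImplicit false

namespace Pool.Agent.Results.MP_e15572_ag.Disconnected

open MvPolynomial

variable {R : Type} [CommRing R]

/-- The Frobenius power `J^[q]`. -/
def frob (J : Ideal R) (q : ℕ) : Ideal R := Ideal.span {g | ∃ f ∈ J, g = f ^ q}

/-- The Frobenius root `b^[1/q]`: the smallest ideal `J` with `b ⊆ J^[q]`. -/
def root (b : Ideal R) (q : ℕ) : Ideal R := sInf {J | b ≤ frob J q}

/-- The mixed test ideal of two ideals of a regular ring of characteristic `p`. -/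
def tau (p : ℕ) (a : Fin 2 → Ideal R) (t : Fin 2 → ℝ) : Set R :=
  ⋃ e : ℕ, root (a 0 ^ ⌈t 0 * (p ^ e : ℕ)⌉₊ * a 1 ^ ⌈t 1 * (p ^ e : ℕ)⌉₊) (p ^ e)

/-- The constancy region of the point `c`. -/
def region (p : ℕ) (a : Fin 2 → Ideal R) (c : Fin 2 → ℝ) : Set (Fin 2 → ℝ) :=
  {t | 0 ≤ t ∧ tau p a t = tau p a c}

variable {p : ℕ} [Fact p.Prime]

/-- the ideals -/
noncomputable def A (p : ℕ) (i j : Fin 3) : Ideal (MvPolynomial (Fin 3) (ZMod p)) :=
  Ideal.span {X 2} * (Ideal.span {X i} ⊔ Ideal.span {X j ^ 2})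

/-- the value -/
noncomputable def I (p : ℕ) : Ideal (MvPolynomial (Fin 3) (ZMod p)) :=
  Ideal.span {X 0 * X 2, X 1 * X 2}

lemma memA (i j : Fin 3) (a b : ℕ) :
    (X i ^ a * X j ^ (2 * b) * X 2 ^ (a + b) : MvPolynomial (Fin 3) (ZMod p)) ∈ A p i j ^ (a + b) := by
  have h1 : (X 2 * X i : MvPolynomial (Fin 3) (ZMod p)) ∈ A p i j := Ideal.mul_mem_mul
    (Ideal.mem_span_singleton_self _) (Ideal.mem_sup_left (Ideal.mem_span_singleton_self _))
  have h2 : (X 2 * X j ^ 2 : MvPolynomial (Fin 3) (ZMod p)) ∈ A p i j := Ideal.mul_mem_mul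
    (Ideal.mem_span_singleton_self _) (Ideal.mem_sup_right (Ideal.mem_span_singleton_self _))
  have := Ideal.mul_mem_mul (Ideal.pow_mem_pow h1 a) (Ideal.pow_mem_pow h2 b)
  rw [← pow_add] at this
  convert this using 1
  ring

lemma pt (i j : Fin 3) (hij : i ≠ j) (hi : i ≠ 2) (hj : j ≠ 2)
    (hI : I p = Ideal.span {X i * X 2, X j * X 2}) :
    ⋃ e : ℕ, (root (A p i j ^ ⌈(3 / 2 : ℝ) * (p ^ e : ℕ)⌉₊) (p ^ e) :
      Set (MvPolynomial (Fin 3) (ZMod p))) = (I p : Set (MvPolynomial (Fin 3) (ZMod p))) := by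
  have hn : ∀ q : ℕ, 3 * q ≤ 2 * ⌈(3 / 2 : ℝ) * q⌉₊ ∧ 2 * ⌈(3 / 2 : ℝ) * q⌉₊ < 3 * q + 2 := by
    intro q
    have h1 := Nat.le_ceil ((3 / 2 : ℝ) * q)
    have h2 := Nat.ceil_lt_add_one (show 0 ≤ (3 / 2 : ℝ) * q by positivity)
    constructor
    · exact_mod_cast (by linarith : (3 : ℝ) * q ≤ 2 * ⌈(3 / 2 : ℝ) * q⌉₊)
    · exact_mod_cast (by linarith : (2 : ℝ) * ⌈(3 / 2 : ℝ) * q⌉₊ < 3 * q + 2)
  refine Set.Subset.antisymm (Set.iUnion_subset fun e => ?_) (Set.subset_iUnion_of_subset 2 ?_)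
  · refine fun x hx => sInf_le (s := {J | _ ≤ frob J (p ^ e)}) ?_ hx
    obtain ⟨h1, -⟩ := hn (p ^ e)
    obtain ⟨m, hm⟩ : ∃ m, ⌈(3 / 2 : ℝ) * (p ^ e : ℕ)⌉₊ = p ^ e + m :=
      Nat.exists_eq_add_of_le (by omega)
    rw [hm] at h1
    obtain ⟨s, hs⟩ : ∃ s, 2 * m = p ^ e + s := Nat.exists_eq_add_of_le (by omega)
    rw [Set.mem_setOf_eq, hm, A, mul_pow]
    refine (Ideal.mul_mono_right Ideal.sup_pow_add_le_pow_sup_pow).trans ?_
    simp only [Ideal.span_singleton_pow, Ideal.mul_sup, Ideal.span_singleton_mul_span_singleton,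
      sup_le_iff, Ideal.span_singleton_le_iff_mem]
    constructor
    · have : (X i * X 2) ^ p ^ e ∈ frob (I p) (p ^ e) :=
        Ideal.subset_span ⟨_, hI ▸ Ideal.subset_span (by simp), rfl⟩
      convert Ideal.mul_mem_left _ (X 2 ^ m) this using 1
      ring
    · have : (X j * X 2) ^ p ^ e ∈ frob (I p) (p ^ e) :=
        Ideal.subset_span ⟨_, hI ▸ Ideal.subset_span (by simp), rfl⟩
      convert Ideal.mul_mem_left _ (X 2 ^ m * X j ^ s) this using 1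
      rw [← pow_mul, hs]
      ring
  · have h4 : 2 ^ 2 ≤ p ^ 2 := Nat.pow_le_pow_left (Fact.out : p.Prime).two_le 2
    obtain ⟨h1, h2⟩ := hn (p ^ 2)
    set n := ⌈(3 / 2 : ℝ) * (p ^ 2 : ℕ)⌉₊
    rw [hI]
    refine Ideal.span_le.2 (Set.pair_subset ?_ ?_) <;> refine Ideal.mem_sInf.2 fun {J} hJ => ?_
    · have := H52.FR.low3 2 J hij hi hj (a' := 1) (b' := 0) (c' := 1) (hJ (memA i j n 0))
        (by omega) (by omega) (by omega)
      simpa using this
    · have e : p ^ 2 - 1 + (n - (p ^ 2 - 1)) = n := by omega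
      have h := memA (p := p) i j (p ^ 2 - 1) (n - (p ^ 2 - 1))
      rw [e] at h
      have := H52.FR.low3 2 J hij hi hj (a' := 0) (b' := 1) (c' := 1) (hJ h)
        (by omega) (by omega) (by omega)
      simpa using this

lemma diag (s : ℝ) (hs : 0 ≤ s) : tau p ![A p 0 1, A p 1 0] ![s, s] ≠ I p := by
  intro h
  rcases lt_or_ge s 1 with h1 | h1
  · obtain ⟨e, he⟩ := pow_unbounded_of_one_lt (1 / (1 - s))
      (show (1 : ℝ) < p by exact_mod_cast (Fact.out : p.Prime).one_lt)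
    have hq : 0 < p ^ e := pow_pos (Fact.out : p.Prime).pos e
    have hn : ⌈s * (p ^ e : ℕ)⌉₊ < p ^ e := by
      have h2 := Nat.ceil_lt_add_one (show 0 ≤ s * (p ^ e : ℕ) by positivity)
      rw [div_lt_iff₀ (by linarith)] at he
      push_cast at h2 ⊢
      exact_mod_cast (by linarith : (⌈s * (p : ℝ) ^ e⌉₊ : ℝ) < (p : ℝ) ^ e)
    have hz : (X 2 : MvPolynomial (Fin 3) (ZMod p)) ∈ (I p : Set _) := by
      rw [← h]
      refine Set.mem_iUnion.2 ⟨e, Ideal.mem_sInf.2 fun {J} hJ => ?_⟩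
      set n := ⌈s * (p ^ e : ℕ)⌉₊
      have h3 := hJ (Ideal.mul_mem_mul (memA 0 1 n 0) (memA 1 0 n 0))
      have h4 : (X 0 ^ n * X 1 ^ n * X 2 ^ (2 * n) : MvPolynomial (Fin 3) (ZMod p))
          ∈ frob J (p ^ e) := by
        convert h3 using 1
        ring
      simpa using H52.FR.low3 e J (by decide) (by decide) (by decide) (a' := 0) (b' := 0)
        (c' := 1) h4 (by omega) (by omega) (by omega)
    obtain ⟨a, b, e⟩ := Ideal.mem_span_pair.1 hz
    simpa using congrArg (eval ![0, 0, 1]) e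
  · have hz : (X 0 * X 2 : MvPolynomial (Fin 3) (ZMod p)) ∈ (I p : Set _) :=
      Ideal.subset_span (by simp)
    rw [← h] at hz
    obtain ⟨e, he⟩ := Set.mem_iUnion.1 hz
    have hn : p ^ e ≤ ⌈s * (p ^ e : ℕ)⌉₊ := by
      have := Nat.le_ceil (s * (p ^ e : ℕ))
      have h0 : (0 : ℝ) ≤ (p ^ e : ℕ) := Nat.cast_nonneg _
      exact_mod_cast (by nlinarith : ((p ^ e : ℕ) : ℝ) ≤ ⌈s * (p ^ e : ℕ)⌉₊)
    have h2 : (X 0 * X 2 : MvPolynomial (Fin 3) (ZMod p)) ∈ Ideal.span {X 2 ^ 2} := by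
      refine Ideal.mem_sInf.1 he ?_
      have hA : ∀ i j, A p i j ^ ⌈s * (p ^ e : ℕ)⌉₊ ≤ Ideal.span {X 2 ^ p ^ e} := by
        intro i j
        have h3 : A p i j ≤ Ideal.span {X 2} := Ideal.mul_le_left
        rw [← Ideal.span_singleton_pow]
        exact (Ideal.pow_le_pow_right hn).trans (Ideal.pow_right_mono h3 (p ^ e))
      change A p 0 1 ^ ⌈s * (p ^ e : ℕ)⌉₊ * A p 1 0 ^ ⌈s * (p ^ e : ℕ)⌉₊ ≤ _
      refine (Ideal.mul_mono (hA 0 1) (hA 1 0)).trans ?_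
      rw [Ideal.span_singleton_mul_span_singleton, Ideal.span_singleton_le_iff_mem]
      exact Ideal.subset_span ⟨X 2 ^ 2, Ideal.mem_span_singleton_self _, by ring⟩
    obtain ⟨r, hr⟩ := Ideal.mem_span_singleton'.1 h2
    have h3 : r * X 2 = X 0 := mul_right_cancel₀ (X_ne_zero 2) (by rw [← hr]; ring)
    simpa using congrArg (eval ![1, 0, 0]) h3

theorem result (p : ℕ) [Fact p.Prime] :
    ∃ (a : Fin 2 → Ideal (MvPolynomial (Fin 3) (ZMod p))) (c : Fin 2 → ℝ),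
      0 ≤ c ∧ ¬ IsConnected (region p a c) ∧ ¬ IsPathConnected (region p a c) := by
  have h1 : tau p ![A p 0 1, A p 1 0] ![3 / 2, 0] = I p := by
    rw [← pt 0 1 (by decide) (by decide) (by decide) rfl]
    simp [tau]
  have h2 : tau p ![A p 0 1, A p 1 0] ![0, 3 / 2] = I p := by
    rw [← pt 1 0 (by decide) (by decide) (by decide) (by rw [I, Set.pair_comm])]
    simp [tau]
  have c1 : (0 : Fin 2 → ℝ) ≤ ![3 / 2, 0] := fun i => by fin_cases i <;> norm_num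
  have c2 : (0 : Fin 2 → ℝ) ≤ ![0, 3 / 2] := fun i => by fin_cases i <;> norm_num
  have key : ¬ IsConnected (region p ![A p 0 1, A p 1 0] ![3 / 2, 0]) := by
    intro h
    have hc : Continuous fun t : Fin 2 → ℝ => t 0 - t 1 := by fun_prop
    obtain ⟨t, ⟨t0, ht⟩, e⟩ := h.isPreconnected.intermediate_value
      (a := ![0, 3 / 2]) (b := ![3 / 2, 0]) ⟨c2, h2.trans h1.symm⟩ ⟨c1, rfl⟩ hc.continuousOn
      (show (0 : ℝ) ∈ Set.Icc _ _ by constructor <;> norm_num)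
    have e' : t = ![t 0, t 0] := by
      funext i
      fin_cases i
      · rfl
      · exact (sub_eq_zero.1 e).symm
    exact diag (t 0) (t0 0) (e' ▸ ht.trans h1)
  exact ⟨![A p 0 1, A p 1 0], ![3 / 2, 0], c1, key, fun h => key h.isConnected⟩

end Pool.Agent.Results.MP_e15572_ag.Disconnected
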